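import Pool.Agent.W424.KI.Stm
import Pool.Agent.H160R2.MU.T_g3

/-!
# Coarse geometry of the annulus: z1, z2, z3
-/

set_option autoImplicit false
set_option maxHeartbeats 4000000

namespace Pool.Agent.W481.KI

open H974 H906.Cyl
open H12S (Dir hbE segD rimE H4 Crs Nr sqE)
open Pool.Agent.H160R2.ML (nm)
open Pool.Agent.H160R2.MU (Cel csq cpos EP inSq)
open Pool.Agent.W801.OU
open Pool.Agent.W808.KZ (AdmZ)
open Pool.Agent.W424.KI

namespace TZ

open Pool.Agent.H160R2.MU.Tg3 (K Kh Kv mem_sq full close top left bottom right)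

lemma admZ {N : ℕ} {C : Cel} (h : AdmZ N C) :
    (C.1 = 0 ∨ C.1 = 1 ∨ C.1 = 2 ∨ C.1 = 3) ∧ -(N : ℤ) + 6 ≤ C.2 ∧ C.2 + 7 ≤ N := by
  obtain ⟨h1, h2, h3⟩ := h
  refine ⟨by omega, h2, h3⟩

lemma admO {L : ℕ} {C : Cel} (h : AdmO L C) :
    (C.1 = 0 ∨ C.1 = 1 ∨ C.1 = 2 ∨ C.1 = 3) ∧ -(L : ℤ) + 8 ≤ C.2 ∧ C.2 + 9 ≤ L := by
  obtain ⟨h1, h2, h3⟩ := h
  refine ⟨by omega, h2, h3⟩

lemma csq0 {N : ℕ} {C : Cel} (h : C.1 = 0) : csq N C = (C.2, (N : ℤ)) := by simp [csq, h]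
lemma csq1 {N : ℕ} {C : Cel} (h : C.1 = 1) : csq N C = ((N : ℤ), C.2) := by simp [csq, h]
lemma csq2 {N : ℕ} {C : Cel} (h : C.1 = 2) : csq N C = (C.2, -(N : ℤ) - 1) := by simp [csq, h]
lemma csq3 {N : ℕ} {C : Cel} (h : C.1 = 3) : csq N C = (-(N : ℤ) - 1, C.2) := by simp [csq, h]
lemma isq0 {L : ℕ} {C : Cel} (h : C.1 = 0) : isq L C = (C.2, (L : ℤ) - 1) := by simp [isq, h]
lemma isq1 {L : ℕ} {C : Cel} (h : C.1 = 1) : isq L C = ((L : ℤ) - 1, C.2) := by simp [isq, h]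
lemma isq2 {L : ℕ} {C : Cel} (h : C.1 = 2) : isq L C = (C.2, -(L : ℤ)) := by simp [isq, h]
lemma isq3 {L : ℕ} {C : Cel} (h : C.1 = 3) : isq L C = (-(L : ℤ), C.2) := by simp [isq, h]

lemma z1A {N L : ℕ} {C : Cel} (hN : (16 : ℤ) ≤ N) (hL : 3 * (N : ℤ) ≤ L) (hC : AdmZ N C)
    {x y x' y' : ℤ} (hz : (x, y) ∈ StI N L C) (hb : (x', y') ∈ BxI N L)
    (h1 : -1 ≤ x - x' ∧ x - x' ≤ 1) (h2 : -1 ≤ y - y' ∧ y - y' ≤ 1) :
    (x, y) = csq N C ∧ (-(N : ℤ) ≤ x' ∧ x' ≤ N) ∧ -(N : ℤ) ≤ y' ∧ y' ≤ N := by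
  obtain ⟨i0, i1, i2⟩ := admZ hC
  simp only [StI, BxI, Set.mem_ofPred_eq] at hz hb
  rcases hz with ⟨h0, g1, g2, g3⟩ | ⟨h0, g1, g2, g3⟩ | ⟨h0, g1, g2, g3⟩ | ⟨h0, g1, g2, g3⟩
  · rw [csq0 h0, Prod.mk.injEq]; omega
  · rw [csq1 h0, Prod.mk.injEq]; omega
  · rw [csq2 h0, Prod.mk.injEq]; omega
  · rw [csq3 h0, Prod.mk.injEq]; omega

lemma z1B {N L : ℕ} (hN : (16 : ℤ) ≤ N) (hL : 3 * (N : ℤ) ≤ L)
    {x y x' y' : ℤ} (hz : (x, y) ∈ RgI L) (hb : (x', y') ∈ BxI N L)
    (h1 : -1 ≤ x - x' ∧ x - x' ≤ 1) (h2 : -1 ≤ y - y' ∧ y - y' ≤ 1) : False := by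
  simp only [RgI, BxI, Set.mem_ofPred_eq] at hz hb
  omega

lemma z1C {N L : ℕ} {C : Cel} (hN : (16 : ℤ) ≤ N) (hL : 3 * (N : ℤ) ≤ L) (hC : AdmO L C)
    {x y x' y' : ℤ} (hz : (x, y) ∈ StO L C) (hb : (x', y') ∈ BxI N L)
    (h1 : -1 ≤ x - x' ∧ x - x' ≤ 1) (h2 : -1 ≤ y - y' ∧ y - y' ≤ 1) :
    (x, y) = isq L C ∧ ((L : ℤ) ≤ x' + 1 ∨ (L : ℤ) ≤ -x' + 1 ∨ (L : ℤ) ≤ y' + 1 ∨
      (L : ℤ) ≤ -y' + 1) := by
  obtain ⟨i0, i1, i2⟩ := admO hC
  simp only [StO, BxI, Set.mem_ofPred_eq] at hz hb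
  rcases hz with ⟨h0, g1, g2, g3⟩ | ⟨h0, g1, g2, g3⟩ | ⟨h0, g1, g2, g3⟩ | ⟨h0, g1, g2, g3⟩
  · rw [isq0 h0, Prod.mk.injEq]; omega
  · rw [isq1 h0, Prod.mk.injEq]; omega
  · rw [isq2 h0, Prod.mk.injEq]; omega
  · rw [isq3 h0, Prod.mk.injEq]; omega

end TZ

open TZ

theorem t_z1 : S_z1 := by
  intro N L Ci Co hN hL hCi hCo z b hz hb h1 h2
  have hN' : (16 : ℤ) ≤ N := by exact_mod_cast hN
  have hL' : 3 * (N : ℤ) ≤ L := by exact_mod_cast hL
  obtain ⟨x, y⟩ := z
  obtain ⟨x', y'⟩ := b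
  rw [abs_le] at h1 h2
  rcases hz with hz | hz | hz
  · left
    obtain ⟨e1, e2, e3⟩ := z1A hN' hL' hCi hz hb h1 h2
    exact ⟨e1, abs_le.mpr e2, abs_le.mpr e3⟩
  · exact (z1B hN' hL' hz hb h1 h2).elim
  · right
    obtain ⟨e1, e2⟩ := z1C hN' hL' hCo hz hb h1 h2
    refine ⟨e1, ?_⟩
    have ax := le_abs_self x'
    have ax' := neg_le_abs x'
    have ay := le_abs_self y'
    have ay' := neg_le_abs y'
    rcases e2 with e | e | e | e
    · left; show (L : ℤ) ≤ |x'| + 1; omega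
    · left; show (L : ℤ) ≤ |x'| + 1; omega
    · right; show (L : ℤ) ≤ |y'| + 1; omega
    · right; show (L : ℤ) ≤ |y'| + 1; omega


namespace TZ

open Pool.Agent.H160R2.MU.Tg3 (K Kh Kv mem_sq full close top left bottom right)

/-! ### the chain -/

section chain

variable {N L : ℕ} {Ci Co : Cel}

lemma mR {z : ℤ × ℤ} (h : z ∈ RgI L) : z ∈ TubI N L Ci Co := Or.inr (Or.inl h)
lemma mI {z : ℤ × ℤ} (h : z ∈ StI N L Ci) : z ∈ TubI N L Ci Co := Or.inl h
lemma mO {z : ℤ × ℤ} (h : z ∈ StO L Co) : z ∈ TubI N L Ci Co := Or.inr (Or.inr h)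

lemma kTop {x : ℤ} (h1 : -(L : ℤ) + 8 ≤ x) (h2 : x ≤ L - 3) :
    K (TubI N L Ci Co) (x, (L : ℤ) - 3) ((L : ℤ) - 3, (L : ℤ) - 3) :=
  Kh h2 fun t h3 h4 => mR (Or.inl ⟨rfl, h1.trans h3, h4⟩)

lemma kRight {y : ℤ} (h1 : -(L : ℤ) + 2 ≤ y) (h2 : y ≤ L - 3) :
    K (TubI N L Ci Co) ((L : ℤ) - 3, y) ((L : ℤ) - 3, (L : ℤ) - 3) :=
  Kv h2 fun t h3 h4 => mR (Or.inr (Or.inl ⟨rfl, h1.trans h3, h4⟩))

lemma kBot (hL : (48 : ℤ) ≤ L) {x : ℤ} (h1 : -(L : ℤ) + 2 ≤ x) (h2 : x ≤ L - 3) :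
    K (TubI N L Ci Co) (x, -(L : ℤ) + 2) ((L : ℤ) - 3, (L : ℤ) - 3) :=
  (Kh h2 fun t h3 h4 => mR (Or.inr (Or.inr (Or.inl ⟨rfl, h1.trans h3, h4⟩)))).trans
    (kRight le_rfl (by omega))

lemma kLeft (hL : (48 : ℤ) ≤ L) {y : ℤ} (h1 : -(L : ℤ) + 2 ≤ y) (h2 : y ≤ L - 9) :
    K (TubI N L Ci Co) (-(L : ℤ) + 2, y) ((L : ℤ) - 3, (L : ℤ) - 3) :=
  (Kv h1 fun t h3 h4 => mR (Or.inr (Or.inr (Or.inr ⟨rfl, h3, h4.trans h2⟩)))).symm.trans
    (kBot hL le_rfl (by omega))

lemma tube (hN : (16 : ℤ) ≤ N) (hL : 3 * (N : ℤ) ≤ L) (hCi : AdmZ N Ci) (hCo : AdmO L Co) :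
    ∀ z ∈ TubI N L Ci Co, K (TubI N L Ci Co) z ((L : ℤ) - 3, (L : ℤ) - 3) := by
  obtain ⟨i0, i1, i2⟩ := admZ hCi
  obtain ⟨o0, o1, o2⟩ := admO hCo
  obtain ⟨ci0, ci⟩ := Ci
  obtain ⟨co0, co⟩ := Co
  simp only at i1 i2 o1 o2
  have h48 : (48 : ℤ) ≤ L := by omega
  rintro ⟨x, y⟩ (hz | hz | hz)
  · rcases hz with ⟨g0, g1, g2, g3⟩ | ⟨g0, g1, g2, g3⟩ | ⟨g0, g1, g2, g3⟩ | ⟨g0, g1, g2, g3⟩ <;>
      simp only at g1 g2 g3
    · subst g1
      exact (Kv g3 fun t h1 h2 => mI (Or.inl ⟨g0, rfl, g2.trans h1, h2⟩)).trans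
        (kTop (by omega) (by omega))
    · subst g1
      exact (Kh g3 fun t h1 h2 => mI (Or.inr (Or.inl ⟨g0, rfl, g2.trans h1, h2⟩))).trans
        (kRight (by omega) (by omega))
    · subst g1
      exact (Kv g2 fun t h1 h2 => mI (Or.inr (Or.inr (Or.inl ⟨g0, rfl, h1, h2.trans g3⟩)))).symm.trans
        (kBot h48 (by omega) (by omega))
    · subst g1
      exact (Kh g2 fun t h1 h2 => mI (Or.inr (Or.inr (Or.inr ⟨g0, rfl, h1, h2.trans g3⟩)))).symm.trans
        (kLeft h48 (by omega) (by omega))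
  · rcases hz with ⟨g1, g2, g3⟩ | ⟨g1, g2, g3⟩ | ⟨g1, g2, g3⟩ | ⟨g1, g2, g3⟩ <;>
      simp only at g1 g2 g3 <;> subst g1
    · exact kTop g2 g3
    · exact kRight g2 g3
    · exact kBot h48 g2 g3
    · exact kLeft h48 g2 g3
  · rcases hz with ⟨g0, g1, g2, g3⟩ | ⟨g0, g1, g2, g3⟩ | ⟨g0, g1, g2, g3⟩ | ⟨g0, g1, g2, g3⟩ <;>
      simp only at g1 g2 g3
    · subst g1
      exact (Kv g2 fun t h1 h2 => mO (Or.inl ⟨g0, rfl, h1, h2.trans g3⟩)).symm.trans
        (kTop (by omega) (by omega))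
    · subst g1
      exact (Kh g2 fun t h1 h2 => mO (Or.inr (Or.inl ⟨g0, rfl, h1, h2.trans g3⟩))).symm.trans
        (kRight (by omega) (by omega))
    · subst g1
      exact (Kv g3 fun t h1 h2 => mO (Or.inr (Or.inr (Or.inl ⟨g0, rfl, g2.trans h1, h2⟩)))).trans
        (kBot h48 (by omega) (by omega))
    · subst g1
      exact (Kh g3 fun t h1 h2 => mO (Or.inr (Or.inr (Or.inr ⟨g0, rfl, g2.trans h1, h2⟩)))).trans
        (kLeft h48 (by omega) (by omega))

end chain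

/-! ### inside one square -/

section inner

variable {N L : ℕ} {Ci Co : Cel} {r : ℕ} (hr : 1 ≤ r) {z : ℤ × ℤ} (hz : z ∈ TubI N L Ci Co)
  {u v : Vtx} (hu : inSq r z u) (hv : inSq r z v)

include hr in
lemma nearB {e : Edg} (he : e ∈ sqE r z) (hB : e ∈ EB N L r) : ∃ b : ℤ × ℤ, b ∈ BxI N L ∧
    |z.1 - b.1| ≤ 1 ∧ |z.2 - b.2| ≤ 1 ∧ inSq r b (src e) ∧ inSq r b (tgt e) := by
  obtain ⟨b, hb, heb⟩ := hB
  have q1 := mem_sq he
  have q2 := mem_sq heb
  have q3 := close hr q1.1 q2.1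
  exact ⟨b, hb, q3.1, q3.2, q2.1, q2.2⟩

include hr hz hu hv

lemma useBottom (h : ∀ b : ℤ × ℤ, b ∈ BxI N L → |z.1 - b.1| ≤ 1 → |z.2 - b.2| ≤ 1 →
    b.2 + 1 ≤ z.2) : Reach (ET N L r Ci Co \ EB N L r) u v := by
  refine bottom (F := ET N L r Ci Co \ EB N L r) hr (fun e he hne => ⟨⟨z, hz, he⟩, fun hB => hne ?_⟩)
    hu hv
  obtain ⟨b, hb, h1, h2, p1, p2⟩ := nearB hr he hB
  obtain ⟨q1, q2⟩ := mem_sq he
  have w3 : (r : ℤ) * (b.2 + 1) ≤ r * z.2 := mul_le_mul_of_nonneg_left (h b hb h1 h2) (by omega)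
  have w4 : (r : ℤ) * (b.2 + 1) = r * b.2 + r := by ring
  have := p1.2.2.2
  have := p2.2.2.2
  have := q1.2.2.1
  have := q2.2.2.1
  constructor <;> omega

lemma useLeft (h : ∀ b : ℤ × ℤ, b ∈ BxI N L → |z.1 - b.1| ≤ 1 → |z.2 - b.2| ≤ 1 →
    b.1 + 1 ≤ z.1) : Reach (ET N L r Ci Co \ EB N L r) u v := by
  refine left (F := ET N L r Ci Co \ EB N L r) hr (fun e he hne => ⟨⟨z, hz, he⟩, fun hB => hne ?_⟩)
    hu hv
  obtain ⟨b, hb, h1, h2, p1, p2⟩ := nearB hr he hB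
  obtain ⟨q1, q2⟩ := mem_sq he
  have w3 : (r : ℤ) * (b.1 + 1) ≤ r * z.1 := mul_le_mul_of_nonneg_left (h b hb h1 h2) (by omega)
  have w4 : (r : ℤ) * (b.1 + 1) = r * b.1 + r := by ring
  have := p1.2.1
  have := p2.2.1
  have := q1.1
  have := q2.1
  constructor <;> omega

lemma useTop (h : ∀ b : ℤ × ℤ, b ∈ BxI N L → |z.1 - b.1| ≤ 1 → |z.2 - b.2| ≤ 1 →
    z.2 + 1 ≤ b.2) : Reach (ET N L r Ci Co \ EB N L r) u v := by
  refine top (F := ET N L r Ci Co \ EB N L r) hr (fun e he hne => ⟨⟨z, hz, he⟩, fun hB => hne ?_⟩)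
    hu hv
  obtain ⟨b, hb, h1, h2, p1, p2⟩ := nearB hr he hB
  obtain ⟨q1, q2⟩ := mem_sq he
  have w3 : (r : ℤ) * (z.2 + 1) ≤ r * b.2 := mul_le_mul_of_nonneg_left (h b hb h1 h2) (by omega)
  have w4 : (r : ℤ) * (z.2 + 1) = r * z.2 + r := by ring
  have := p1.2.2.1
  have := p2.2.2.1
  have := q1.2.2.2
  have := q2.2.2.2
  constructor <;> omega

lemma useRight (h : ∀ b : ℤ × ℤ, b ∈ BxI N L → |z.1 - b.1| ≤ 1 → |z.2 - b.2| ≤ 1 →
    z.1 + 1 ≤ b.1) : Reach (ET N L r Ci Co \ EB N L r) u v := by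
  refine right (F := ET N L r Ci Co \ EB N L r) hr (fun e he hne => ⟨⟨z, hz, he⟩, fun hB => hne ?_⟩)
    hu hv
  obtain ⟨b, hb, h1, h2, p1, p2⟩ := nearB hr he hB
  obtain ⟨q1, q2⟩ := mem_sq he
  have w3 : (r : ℤ) * (z.1 + 1) ≤ r * b.1 := mul_le_mul_of_nonneg_left (h b hb h1 h2) (by omega)
  have w4 : (r : ℤ) * (z.1 + 1) = r * z.1 + r := by ring
  have := p1.1
  have := p2.1
  have := q1.2.1
  have := q2.2.1
  constructor <;> omega

lemma inner (hN : 16 ≤ N) (hL : 3 * N ≤ L) (hCi : AdmZ N Ci) (hCo : AdmO L Co) :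
    Reach (ET N L r Ci Co \ EB N L r) u v := by
  have hN' : (16 : ℤ) ≤ N := by exact_mod_cast hN
  have hL' : 3 * (N : ℤ) ≤ L := by exact_mod_cast hL
  obtain ⟨i0, i1, i2⟩ := admZ hCi
  obtain ⟨o0, o1, o2⟩ := admO hCo
  by_cases hb : ∃ b : ℤ × ℤ, b ∈ BxI N L ∧ |z.1 - b.1| ≤ 1 ∧ |z.2 - b.2| ≤ 1
  · obtain ⟨b, hbs, hb1, hb2⟩ := hb
    rcases t_z1 N L Ci Co hN hL hCi hCo z b hz hbs hb1 hb2 with ⟨hac, -⟩ | ⟨hac, -⟩
    · rcases i0 with h0 | h0 | h0 | h0
      · rw [csq0 h0] at hac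
        refine useBottom hr hz hu hv fun b' hb' h1 h2 => ?_
        rw [abs_le] at h1 h2
        simp only [BxI, Set.mem_ofPred_eq] at hb'
        rw [hac] at h1 h2 ⊢
        simp only at h1 h2 ⊢
        omega
      · rw [csq1 h0] at hac
        refine useLeft hr hz hu hv fun b' hb' h1 h2 => ?_
        rw [abs_le] at h1 h2
        simp only [BxI, Set.mem_ofPred_eq] at hb'
        rw [hac] at h1 h2 ⊢
        simp only at h1 h2 ⊢
        omega
      · rw [csq2 h0] at hac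
        refine useTop hr hz hu hv fun b' hb' h1 h2 => ?_
        rw [abs_le] at h1 h2
        simp only [BxI, Set.mem_ofPred_eq] at hb'
        rw [hac] at h1 h2 ⊢
        simp only at h1 h2 ⊢
        omega
      · rw [csq3 h0] at hac
        refine useRight hr hz hu hv fun b' hb' h1 h2 => ?_
        rw [abs_le] at h1 h2
        simp only [BxI, Set.mem_ofPred_eq] at hb'
        rw [hac] at h1 h2 ⊢
        simp only at h1 h2 ⊢
        omega
    · rcases o0 with h0 | h0 | h0 | h0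
      · rw [isq0 h0] at hac
        refine useTop hr hz hu hv fun b' hb' h1 h2 => ?_
        rw [abs_le] at h1 h2
        simp only [BxI, Set.mem_ofPred_eq] at hb'
        rw [hac] at h1 h2 ⊢
        simp only at h1 h2 ⊢
        omega
      · rw [isq1 h0] at hac
        refine useRight hr hz hu hv fun b' hb' h1 h2 => ?_
        rw [abs_le] at h1 h2
        simp only [BxI, Set.mem_ofPred_eq] at hb'
        rw [hac] at h1 h2 ⊢
        simp only at h1 h2 ⊢
        omega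
      · rw [isq2 h0] at hac
        refine useBottom hr hz hu hv fun b' hb' h1 h2 => ?_
        rw [abs_le] at h1 h2
        simp only [BxI, Set.mem_ofPred_eq] at hb'
        rw [hac] at h1 h2 ⊢
        simp only at h1 h2 ⊢
        omega
      · rw [isq3 h0] at hac
        refine useLeft hr hz hu hv fun b' hb' h1 h2 => ?_
        rw [abs_le] at h1 h2
        simp only [BxI, Set.mem_ofPred_eq] at hb'
        rw [hac] at h1 h2 ⊢
        simp only at h1 h2 ⊢
        omega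
  · refine full (F := ET N L r Ci Co \ EB N L r) (fun e he => ⟨⟨z, hz, he⟩, fun hB => ?_⟩) hu hv
    obtain ⟨b, hb', h1, h2, -, -⟩ := nearB hr he hB
    exact hb ⟨b, hb', h1, h2⟩

end inner

end TZ

theorem t_z2 : S_z2 := by
  intro N L Ci Co hN hL hCi hCo
  have hN' : (16 : ℤ) ≤ N := by exact_mod_cast hN
  have hL' : 3 * (N : ℤ) ≤ L := by exact_mod_cast hL
  obtain ⟨i0, i1, i2⟩ := admZ hCi
  obtain ⟨o0, o1, o2⟩ := admO hCo
  refine ⟨?_, ?_, ?_⟩
  · intro r z z' u v hr hz hz' hu hv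
    exact Pool.Agent.H160R2.MU.Tg3.K.reach
      (fun w hw x y hx hy => TZ.inner hr hw hx hy hN hL hCi hCo)
      ((TZ.tube hN' hL' hCi hCo z hz).trans (TZ.tube hN' hL' hCi hCo z' hz').symm) hz u v hu hv
  · left
    rcases i0 with h0 | h0 | h0 | h0
    · rw [csq0 h0]; exact Or.inl ⟨h0, rfl, le_rfl, by show (N : ℤ) ≤ L - 3; omega⟩
    · rw [csq1 h0]; exact Or.inr (Or.inl ⟨h0, rfl, le_rfl, by show (N : ℤ) ≤ L - 3; omega⟩)
    · rw [csq2 h0]
      exact Or.inr (Or.inr (Or.inl ⟨h0, rfl, by show -(L : ℤ) + 2 ≤ -N - 1; omega, le_rfl⟩))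
    · rw [csq3 h0]
      exact Or.inr (Or.inr (Or.inr ⟨h0, rfl, by show -(L : ℤ) + 2 ≤ -N - 1; omega, le_rfl⟩))
  · right; right
    rcases o0 with h0 | h0 | h0 | h0
    · rw [isq0 h0]; exact Or.inl ⟨h0, rfl, by show (L : ℤ) - 3 ≤ L - 1; omega, le_rfl⟩
    · rw [isq1 h0]; exact Or.inr (Or.inl ⟨h0, rfl, by show (L : ℤ) - 3 ≤ L - 1; omega, le_rfl⟩)
    · rw [isq2 h0]
      exact Or.inr (Or.inr (Or.inl ⟨h0, rfl, le_rfl, by show -(L : ℤ) ≤ -L + 2; omega⟩))
    · rw [isq3 h0]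
      exact Or.inr (Or.inr (Or.inr ⟨h0, rfl, le_rfl, by show -(L : ℤ) ≤ -L + 2; omega⟩))


namespace TZ

set_option linter.unreachableTactic false


/-- coordinates of the set P, with the two stubs as segments -/
inductive PM (N L ci co : ℤ) (si so : ℕ) (x y : ℤ) : Prop
  | a0 : -N ≤ x → x < N → -N ≤ y → y < N → PM N L ci co si so x y
  | a1 : x < -L → PM N L ci co si so x y
  | a2 : L ≤ x → PM N L ci co si so x y
  | a3 : y < -L → PM N L ci co si so x y
  | a4 : L ≤ y → PM N L ci co si so x y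
  | b0 : si = 0 → x = ci → N ≤ y → y ≤ L - 3 → PM N L ci co si so x y
  | b1 : si = 1 → y = ci → N ≤ x → x ≤ L - 3 → PM N L ci co si so x y
  | b2 : si = 2 → x = ci → -L + 2 ≤ y → y ≤ -N - 1 → PM N L ci co si so x y
  | b3 : si = 3 → y = ci → -L + 2 ≤ x → x ≤ -N - 1 → PM N L ci co si so x y
  | c0 : y = L - 3 → -L + 8 ≤ x → x ≤ L - 3 → PM N L ci co si so x y
  | c1 : x = L - 3 → -L + 2 ≤ y → y ≤ L - 3 → PM N L ci co si so x y
  | c2 : y = -L + 2 → -L + 2 ≤ x → x ≤ L - 3 → PM N L ci co si so x y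
  | c3 : x = -L + 2 → -L + 2 ≤ y → y ≤ L - 9 → PM N L ci co si so x y
  | d0 : so = 0 → x = co → L - 3 ≤ y → y ≤ L - 1 → PM N L ci co si so x y
  | d1 : so = 1 → y = co → L - 3 ≤ x → x ≤ L - 1 → PM N L ci co si so x y
  | d2 : so = 2 → x = co → -L ≤ y → y ≤ -L + 2 → PM N L ci co si so x y
  | d3 : so = 3 → y = co → -L ≤ x → x ≤ -L + 2 → PM N L ci co si so x y

open PM

theorem anti (N L ci co : ℤ) (si so : ℕ) (hN : 16 ≤ N) (hL : 3 * N ≤ L)
    (e1 : -N + 6 ≤ ci) (e2 : ci + 7 ≤ N) (f1 : -L + 8 ≤ co) (f2 : co + 9 ≤ L) (x y : ℤ)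
    (h1 : PM N L ci co si so (x + 1) y) (h2 : PM N L ci co si so x (y + 1)) :
    PM N L ci co si so x y ∨ PM N L ci co si so (x + 1) (y + 1) := by
  cases h1 <;> cases h2 <;>
  first
  | (exfalso; omega)
  | exact Or.inl (a0 (by omega) (by omega) (by omega) (by omega))
  | exact Or.inl (a1 (by omega))
  | exact Or.inl (a2 (by omega))
  | exact Or.inl (a3 (by omega))
  | exact Or.inl (a4 (by omega))
  | exact Or.inl (b0 (by omega) (by omega) (by omega) (by omega))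
  | exact Or.inl (b1 (by omega) (by omega) (by omega) (by omega))
  | exact Or.inl (b2 (by omega) (by omega) (by omega) (by omega))
  | exact Or.inl (b3 (by omega) (by omega) (by omega) (by omega))
  | exact Or.inl (c0 (by omega) (by omega) (by omega))
  | exact Or.inl (c1 (by omega) (by omega) (by omega))
  | exact Or.inl (c2 (by omega) (by omega) (by omega))
  | exact Or.inl (c3 (by omega) (by omega) (by omega))
  | exact Or.inl (d0 (by omega) (by omega) (by omega) (by omega))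
  | exact Or.inl (d1 (by omega) (by omega) (by omega) (by omega))
  | exact Or.inl (d2 (by omega) (by omega) (by omega) (by omega))
  | exact Or.inl (d3 (by omega) (by omega) (by omega) (by omega))
  | exact Or.inr (a0 (by omega) (by omega) (by omega) (by omega))
  | exact Or.inr (a1 (by omega))
  | exact Or.inr (a2 (by omega))
  | exact Or.inr (a3 (by omega))
  | exact Or.inr (a4 (by omega))
  | exact Or.inr (b0 (by omega) (by omega) (by omega) (by omega))
  | exact Or.inr (b1 (by omega) (by omega) (by omega) (by omega))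
  | exact Or.inr (b2 (by omega) (by omega) (by omega) (by omega))
  | exact Or.inr (b3 (by omega) (by omega) (by omega) (by omega))
  | exact Or.inr (c0 (by omega) (by omega) (by omega))
  | exact Or.inr (c1 (by omega) (by omega) (by omega))
  | exact Or.inr (c2 (by omega) (by omega) (by omega))
  | exact Or.inr (c3 (by omega) (by omega) (by omega))
  | exact Or.inr (d0 (by omega) (by omega) (by omega) (by omega))
  | exact Or.inr (d1 (by omega) (by omega) (by omega) (by omega))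
  | exact Or.inr (d2 (by omega) (by omega) (by omega) (by omega))
  | exact Or.inr (d3 (by omega) (by omega) (by omega) (by omega))
  | (rcases lt_or_ge x (-L + 2) with k1 | k1 <;> rcases lt_or_ge x (L - 3) with k2 | k2 <;>
    rcases lt_or_ge y (-L + 2) with k3 | k3 <;> rcases lt_or_ge y (L - 3) with k4 | k4 <;>
      first
      | (exfalso; omega)
      | exact Or.inl (a0 (by omega) (by omega) (by omega) (by omega))
      | exact Or.inl (a1 (by omega))
      | exact Or.inl (a2 (by omega))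
      | exact Or.inl (a3 (by omega))
      | exact Or.inl (a4 (by omega))
      | exact Or.inl (b0 (by omega) (by omega) (by omega) (by omega))
      | exact Or.inl (b1 (by omega) (by omega) (by omega) (by omega))
      | exact Or.inl (b2 (by omega) (by omega) (by omega) (by omega))
      | exact Or.inl (b3 (by omega) (by omega) (by omega) (by omega))
      | exact Or.inl (c0 (by omega) (by omega) (by omega))
      | exact Or.inl (c1 (by omega) (by omega) (by omega))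
      | exact Or.inl (c2 (by omega) (by omega) (by omega))
      | exact Or.inl (c3 (by omega) (by omega) (by omega))
      | exact Or.inl (d0 (by omega) (by omega) (by omega) (by omega))
      | exact Or.inl (d1 (by omega) (by omega) (by omega) (by omega))
      | exact Or.inl (d2 (by omega) (by omega) (by omega) (by omega))
      | exact Or.inl (d3 (by omega) (by omega) (by omega) (by omega))
      | exact Or.inr (a0 (by omega) (by omega) (by omega) (by omega))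
      | exact Or.inr (a1 (by omega))
      | exact Or.inr (a2 (by omega))
      | exact Or.inr (a3 (by omega))
      | exact Or.inr (a4 (by omega))
      | exact Or.inr (b0 (by omega) (by omega) (by omega) (by omega))
      | exact Or.inr (b1 (by omega) (by omega) (by omega) (by omega))
      | exact Or.inr (b2 (by omega) (by omega) (by omega) (by omega))
      | exact Or.inr (b3 (by omega) (by omega) (by omega) (by omega))
      | exact Or.inr (c0 (by omega) (by omega) (by omega))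
      | exact Or.inr (c1 (by omega) (by omega) (by omega))
      | exact Or.inr (c2 (by omega) (by omega) (by omega))
      | exact Or.inr (c3 (by omega) (by omega) (by omega))
      | exact Or.inr (d0 (by omega) (by omega) (by omega) (by omega))
      | exact Or.inr (d1 (by omega) (by omega) (by omega) (by omega))
      | exact Or.inr (d2 (by omega) (by omega) (by omega) (by omega))
      | exact Or.inr (d3 (by omega) (by omega) (by omega) (by omega)))

theorem diag (N L ci co : ℤ) (si so : ℕ) (hN : 16 ≤ N) (hL : 3 * N ≤ L)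
    (e1 : -N + 6 ≤ ci) (e2 : ci + 7 ≤ N) (f1 : -L + 8 ≤ co) (f2 : co + 9 ≤ L) (x y : ℤ)
    (h1 : PM N L ci co si so x y) (h2 : PM N L ci co si so (x + 1) (y + 1)) :
    PM N L ci co si so (x + 1) y ∨ PM N L ci co si so x (y + 1) := by
  cases h1 <;> cases h2 <;>
  first
  | (exfalso; omega)
  | exact Or.inl (a0 (by omega) (by omega) (by omega) (by omega))
  | exact Or.inl (a1 (by omega))
  | exact Or.inl (a2 (by omega))
  | exact Or.inl (a3 (by omega))
  | exact Or.inl (a4 (by omega))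
  | exact Or.inl (b0 (by omega) (by omega) (by omega) (by omega))
  | exact Or.inl (b1 (by omega) (by omega) (by omega) (by omega))
  | exact Or.inl (b2 (by omega) (by omega) (by omega) (by omega))
  | exact Or.inl (b3 (by omega) (by omega) (by omega) (by omega))
  | exact Or.inl (c0 (by omega) (by omega) (by omega))
  | exact Or.inl (c1 (by omega) (by omega) (by omega))
  | exact Or.inl (c2 (by omega) (by omega) (by omega))
  | exact Or.inl (c3 (by omega) (by omega) (by omega))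
  | exact Or.inl (d0 (by omega) (by omega) (by omega) (by omega))
  | exact Or.inl (d1 (by omega) (by omega) (by omega) (by omega))
  | exact Or.inl (d2 (by omega) (by omega) (by omega) (by omega))
  | exact Or.inl (d3 (by omega) (by omega) (by omega) (by omega))
  | exact Or.inr (a0 (by omega) (by omega) (by omega) (by omega))
  | exact Or.inr (a1 (by omega))
  | exact Or.inr (a2 (by omega))
  | exact Or.inr (a3 (by omega))
  | exact Or.inr (a4 (by omega))
  | exact Or.inr (b0 (by omega) (by omega) (by omega) (by omega))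
  | exact Or.inr (b1 (by omega) (by omega) (by omega) (by omega))
  | exact Or.inr (b2 (by omega) (by omega) (by omega) (by omega))
  | exact Or.inr (b3 (by omega) (by omega) (by omega) (by omega))
  | exact Or.inr (c0 (by omega) (by omega) (by omega))
  | exact Or.inr (c1 (by omega) (by omega) (by omega))
  | exact Or.inr (c2 (by omega) (by omega) (by omega))
  | exact Or.inr (c3 (by omega) (by omega) (by omega))
  | exact Or.inr (d0 (by omega) (by omega) (by omega) (by omega))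
  | exact Or.inr (d1 (by omega) (by omega) (by omega) (by omega))
  | exact Or.inr (d2 (by omega) (by omega) (by omega) (by omega))
  | exact Or.inr (d3 (by omega) (by omega) (by omega) (by omega))
  | (rcases lt_or_ge x (-L + 2) with k1 | k1 <;> rcases lt_or_ge x (L - 3) with k2 | k2 <;>
    rcases lt_or_ge y (-L + 2) with k3 | k3 <;> rcases lt_or_ge y (L - 3) with k4 | k4 <;>
      first
      | (exfalso; omega)
      | exact Or.inl (a0 (by omega) (by omega) (by omega) (by omega))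
      | exact Or.inl (a1 (by omega))
      | exact Or.inl (a2 (by omega))
      | exact Or.inl (a3 (by omega))
      | exact Or.inl (a4 (by omega))
      | exact Or.inl (b0 (by omega) (by omega) (by omega) (by omega))
      | exact Or.inl (b1 (by omega) (by omega) (by omega) (by omega))
      | exact Or.inl (b2 (by omega) (by omega) (by omega) (by omega))
      | exact Or.inl (b3 (by omega) (by omega) (by omega) (by omega))
      | exact Or.inl (c0 (by omega) (by omega) (by omega))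
      | exact Or.inl (c1 (by omega) (by omega) (by omega))
      | exact Or.inl (c2 (by omega) (by omega) (by omega))
      | exact Or.inl (c3 (by omega) (by omega) (by omega))
      | exact Or.inl (d0 (by omega) (by omega) (by omega) (by omega))
      | exact Or.inl (d1 (by omega) (by omega) (by omega) (by omega))
      | exact Or.inl (d2 (by omega) (by omega) (by omega) (by omega))
      | exact Or.inl (d3 (by omega) (by omega) (by omega) (by omega))
      | exact Or.inr (a0 (by omega) (by omega) (by omega) (by omega))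
      | exact Or.inr (a1 (by omega))
      | exact Or.inr (a2 (by omega))
      | exact Or.inr (a3 (by omega))
      | exact Or.inr (a4 (by omega))
      | exact Or.inr (b0 (by omega) (by omega) (by omega) (by omega))
      | exact Or.inr (b1 (by omega) (by omega) (by omega) (by omega))
      | exact Or.inr (b2 (by omega) (by omega) (by omega) (by omega))
      | exact Or.inr (b3 (by omega) (by omega) (by omega) (by omega))
      | exact Or.inr (c0 (by omega) (by omega) (by omega))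
      | exact Or.inr (c1 (by omega) (by omega) (by omega))
      | exact Or.inr (c2 (by omega) (by omega) (by omega))
      | exact Or.inr (c3 (by omega) (by omega) (by omega))
      | exact Or.inr (d0 (by omega) (by omega) (by omega) (by omega))
      | exact Or.inr (d1 (by omega) (by omega) (by omega) (by omega))
      | exact Or.inr (d2 (by omega) (by omega) (by omega) (by omega))
      | exact Or.inr (d3 (by omega) (by omega) (by omega) (by omega)))

lemma mem_PM {N L : ℕ} {Ci Co : Cel} (hCi : AdmZ N Ci) (hCo : AdmO L Co) (x y : ℤ) :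
    (x, y) ∈ BxI N L ∪ TubI N L Ci Co ↔ PM N L Ci.2 Co.2 Ci.1 Co.1 x y := by
  obtain ⟨ci0, ci⟩ := Ci
  obtain ⟨co0, co⟩ := Co
  constructor
  · rintro (h | h | h | h)
    · rcases h with ⟨h1, h2, h3, h4⟩ | h
      · exact a0 h1 h2 h3 h4
      · simp only at h
        by_cases k1 : x < -(L : ℤ)
        · exact a1 k1
        · by_cases k2 : (L : ℤ) ≤ x
          · exact a2 k2
          · by_cases k3 : y < -(L : ℤ)
            · exact a3 k3
            · exact a4 (by omega)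
    · rcases h with ⟨g0, g1, g2, g3⟩ | ⟨g0, g1, g2, g3⟩ | ⟨g0, g1, g2, g3⟩ | ⟨g0, g1, g2, g3⟩
      · exact b0 g0 g1 g2 g3
      · exact b1 g0 g1 g2 g3
      · exact b2 g0 g1 g2 g3
      · exact b3 g0 g1 g2 g3
    · rcases h with ⟨g1, g2, g3⟩ | ⟨g1, g2, g3⟩ | ⟨g1, g2, g3⟩ | ⟨g1, g2, g3⟩
      · exact c0 g1 g2 g3
      · exact c1 g1 g2 g3
      · exact c2 g1 g2 g3
      · exact c3 g1 g2 g3
    · rcases h with ⟨g0, g1, g2, g3⟩ | ⟨g0, g1, g2, g3⟩ | ⟨g0, g1, g2, g3⟩ | ⟨g0, g1, g2, g3⟩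
      · exact d0 g0 g1 g2 g3
      · exact d1 g0 g1 g2 g3
      · exact d2 g0 g1 g2 g3
      · exact d3 g0 g1 g2 g3
  · intro h
    cases h with
    | a0 h1 h2 h3 h4 => exact Or.inl (Or.inl ⟨h1, h2, h3, h4⟩)
    | a1 h => exact Or.inl (Or.inr fun k => by simp only at k; omega)
    | a2 h => exact Or.inl (Or.inr fun k => by simp only at k; omega)
    | a3 h => exact Or.inl (Or.inr fun k => by simp only at k; omega)
    | a4 h => exact Or.inl (Or.inr fun k => by simp only at k; omega)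
    | b0 g0 g1 g2 g3 => exact Or.inr (Or.inl (Or.inl ⟨g0, g1, g2, g3⟩))
    | b1 g0 g1 g2 g3 => exact Or.inr (Or.inl (Or.inr (Or.inl ⟨g0, g1, g2, g3⟩)))
    | b2 g0 g1 g2 g3 => exact Or.inr (Or.inl (Or.inr (Or.inr (Or.inl ⟨g0, g1, g2, g3⟩))))
    | b3 g0 g1 g2 g3 => exact Or.inr (Or.inl (Or.inr (Or.inr (Or.inr ⟨g0, g1, g2, g3⟩))))
    | c0 g1 g2 g3 => exact Or.inr (Or.inr (Or.inl (Or.inl ⟨g1, g2, g3⟩)))
    | c1 g1 g2 g3 => exact Or.inr (Or.inr (Or.inl (Or.inr (Or.inl ⟨g1, g2, g3⟩))))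
    | c2 g1 g2 g3 => exact Or.inr (Or.inr (Or.inl (Or.inr (Or.inr (Or.inl ⟨g1, g2, g3⟩)))))
    | c3 g1 g2 g3 => exact Or.inr (Or.inr (Or.inl (Or.inr (Or.inr (Or.inr ⟨g1, g2, g3⟩)))))
    | d0 g0 g1 g2 g3 => exact Or.inr (Or.inr (Or.inr (Or.inl ⟨g0, g1, g2, g3⟩)))
    | d1 g0 g1 g2 g3 => exact Or.inr (Or.inr (Or.inr (Or.inr (Or.inl ⟨g0, g1, g2, g3⟩))))
    | d2 g0 g1 g2 g3 => exact Or.inr (Or.inr (Or.inr (Or.inr (Or.inr (Or.inl ⟨g0, g1, g2, g3⟩)))))
    | d3 g0 g1 g2 g3 => exact Or.inr (Or.inr (Or.inr (Or.inr (Or.inr (Or.inr ⟨g0, g1, g2, g3⟩)))))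

end TZ

theorem t_z3 : S_z3 := by
  intro N L Ci Co hN hL hCi hCo P hP
  have hN' : (16 : ℤ) ≤ N := by exact_mod_cast hN
  have hL' : 3 * (N : ℤ) ≤ L := by exact_mod_cast hL
  subst hP
  obtain ⟨i0, i1, i2⟩ := admZ hCi
  obtain ⟨o0, o1, o2⟩ := admO hCo
  refine ⟨fun x y h1 h2 => ?_, fun x y h1 h2 => ?_, ?_⟩
  · by_contra hcon
    push Not at hcon
    obtain ⟨k1, k2⟩ := hcon
    rw [TZ.mem_PM hCi hCo] at h1 h2 k1 k2
    rcases TZ.anti _ _ _ _ _ _ hN' hL' i1 i2 o1 o2 x y k1 k2 with h | h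
    · exact h1 h
    · exact h2 h
  · by_contra hcon
    push Not at hcon
    obtain ⟨k1, k2⟩ := hcon
    rw [TZ.mem_PM hCi hCo] at h1 h2 k1 k2
    rcases TZ.diag _ _ _ _ _ _ hN' hL' i1 i2 o1 o2 x y k1 k2 with h | h
    · exact h1 h
    · exact h2 h
  · obtain ⟨ci0, ci⟩ := Ci
    obtain ⟨co0, co⟩ := Co
    simp only at i1 i2 o1 o2
    rintro ⟨x, y⟩ (hz | hz | hz)
    · rcases hz with ⟨g0, g1, g2, g3⟩ | ⟨g0, g1, g2, g3⟩ | ⟨g0, g1, g2, g3⟩ | ⟨g0, g1, g2, g3⟩ <;>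
        simp only at g1 g2 g3 ⊢ <;> omega
    · rcases hz with ⟨g1, g2, g3⟩ | ⟨g1, g2, g3⟩ | ⟨g1, g2, g3⟩ | ⟨g1, g2, g3⟩ <;>
        simp only at g1 g2 g3 ⊢ <;> omega
    · rcases hz with ⟨g0, g1, g2, g3⟩ | ⟨g0, g1, g2, g3⟩ | ⟨g0, g1, g2, g3⟩ | ⟨g0, g1, g2, g3⟩ <;>
        simp only at g1 g2 g3 ⊢ <;> omega

end Pool.Agent.W481.KI

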